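import Pool.Agent.Y883.GJ.Stm

set_option autoImplicit false

/-! Project GJ: the identity of Vaughan in a normed space. -/

namespace Pool.Agent.Y235.GJ

open Finset
open Pool.Agent.Helper112 Pool.Agent.Helper112.TI
open Pool.Agent.Y883.GJ (VauStm bt lv)

section

variable {V : Type} [NormedAddCommGroup V] [NormedSpace ℝ V]

omit [NormedSpace ℝ V] in
lemma hyperV (x : ℕ) (g : ℕ → ℕ → V) :
    ∑ n ∈ Icc 1 x, ∑ i ∈ n.divisorsAntidiagonal, g i.1 i.2 =
      ∑ c ∈ Icc 1 x, ∑ b ∈ Icc 1 (x / c), g b c := by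
  rw [sum_sigma', sum_sigma']
  apply sum_nbij' (fun p => (⟨p.2.2, p.2.1⟩ : (_ : ℕ) × ℕ))
    (fun q => (⟨q.2 * q.1, (q.2, q.1)⟩ : (_ : ℕ) × (ℕ × ℕ)))
  · rintro ⟨n, b, c⟩ hp
    simp only [mem_sigma, mem_Icc, Nat.mem_divisorsAntidiagonal] at hp ⊢
    obtain ⟨⟨h1, h2⟩, h3, h4⟩ := hp
    have hb : 0 < b := Nat.pos_of_ne_zero (by rintro rfl; simp at h3; omega)
    have hc : 0 < c := Nat.pos_of_ne_zero (by rintro rfl; simp at h3; omega)
    refine ⟨⟨hc, ?_⟩, hb, ?_⟩
    · have : c ≤ b * c := Nat.le_mul_of_pos_left c hb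
      omega
    · rw [Nat.le_div_iff_mul_le hc]; omega
  · rintro ⟨c, b⟩ hp
    simp only [mem_sigma, mem_Icc, Nat.mem_divisorsAntidiagonal] at hp ⊢
    obtain ⟨⟨h1, h2⟩, h3, h4⟩ := hp
    rw [Nat.le_div_iff_mul_le h1] at h4
    have : 0 < b * c := Nat.mul_pos h3 h1
    exact ⟨⟨this, h4⟩, trivial, this.ne'⟩
  · rintro ⟨n, b, c⟩ hp
    simp only [mem_sigma, mem_Icc, Nat.mem_divisorsAntidiagonal] at hp ⊢
    obtain ⟨⟨h1, h2⟩, h3, h4⟩ := hp
    subst h3
    rfl
  · rintro ⟨c, b⟩ hp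
    rfl
  · rintro ⟨n, b, c⟩ hp
    rfl

omit [NormedSpace ℝ V] in
lemma hyperV' (x : ℕ) (g : ℕ → ℕ → V) :
    ∑ n ∈ Icc 1 x, ∑ i ∈ n.divisorsAntidiagonal, g i.1 i.2 =
      ∑ b ∈ Icc 1 x, ∑ c ∈ Icc 1 (x / b), g b c := by
  rw [← hyperV x (fun b c => g c b)]
  refine sum_congr rfl fun n _ => ?_
  refine Finset.sum_equiv (Equiv.prodComm ℕ ℕ) ?_ ?_
  · intro i
    simp [Nat.mem_divisorsAntidiagonal]
  · intro i _
    rfl

lemma sum_logV (e : ℕ → V) (y : ℕ) (Y : ℝ) (h : ∀ z ≤ y, ‖∑ b ∈ Icc 1 z, e b‖ ≤ Y) :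
    ‖∑ b ∈ Icc 1 y, Real.log b • e b‖ ≤ 2 * Real.log y * Y := by
  have h1 : ∀ b ∈ Icc 1 y, Real.log b • e b =
      ∑ j ∈ Ico 1 b, (Real.log ((j + 1 : ℕ) : ℝ) - Real.log j) • e b := by
    intro b hb
    rw [mem_Icc] at hb
    rw [← sum_smul, Finset.sum_Ico_sub (fun j : ℕ => Real.log j) hb.1]
    simp
  rw [sum_congr rfl h1]
  rw [sum_comm' (t' := Ico 1 y) (s' := fun j => Ioc j y) (by
    intro b j
    simp only [mem_Icc, mem_Ico, mem_Ioc]
    omega)]
  have hI : ∀ j ∈ Ico 1 y, ‖∑ b ∈ Ioc j y, e b‖ ≤ 2 * Y := by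
    intro j hj
    rw [mem_Ico] at hj
    have h2 : ∑ b ∈ Ioc 0 j, e b + ∑ b ∈ Ioc j y, e b = ∑ b ∈ Ioc 0 y, e b :=
      Finset.sum_Ioc_consecutive e (Nat.zero_le j) hj.2.le
    have h3 : ∑ b ∈ Ioc j y, e b = ∑ b ∈ Ioc 0 y, e b - ∑ b ∈ Ioc 0 j, e b := by
      rw [← h2]; abel
    have h4 : ‖∑ b ∈ Ioc 0 y, e b‖ ≤ Y := h y le_rfl
    have h5 : ‖∑ b ∈ Ioc 0 j, e b‖ ≤ Y := h j hj.2.le
    rw [h3]
    refine (norm_sub_le _ _).trans ?_
    linarith
  calc ‖∑ j ∈ Ico 1 y, ∑ b ∈ Ioc j y, (Real.log ((j + 1 : ℕ) : ℝ) - Real.log j) • e b‖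
      ≤ ∑ j ∈ Ico 1 y, (Real.log ((j + 1 : ℕ) : ℝ) - Real.log j) * (2 * Y) := by
        refine (norm_sum_le _ _).trans (sum_le_sum fun j hj => ?_)
        have hj' := mem_Ico.mp hj
        have h2 : 0 ≤ Real.log ((j + 1 : ℕ) : ℝ) - Real.log j := by
          rw [sub_nonneg]
          apply Real.log_le_log (by exact_mod_cast (by omega : 0 < j))
          push_cast; linarith
        rw [← smul_sum, norm_smul, Real.norm_eq_abs, abs_of_nonneg h2]
        exact mul_le_mul_of_nonneg_left (hI j hj) h2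
    _ ≤ 2 * Real.log y * Y := by
        rw [← sum_mul]
        rcases Nat.eq_zero_or_pos y with h0 | h0
        · subst h0; simp
        · rw [Finset.sum_Ico_sub (fun j : ℕ => Real.log j) h0]
          simp only [Nat.cast_one, Real.log_one, sub_zero]
          exact le_of_eq (by ring)

end

theorem vau : VauStm := by
  intro V _ _ E N U Y hU hUN hY
  have hN1 : 1 ≤ N := le_trans (Nat.mul_le_mul hU hU) hUN
  have hUU : U ≤ U * U := Nat.le_mul_of_pos_left U hU
  have hUN' : U ≤ N := hUU.trans hUN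
  have hlN : 0 ≤ Real.log N := Real.log_natCast_nonneg _
  have hY0 : ∀ c ∈ Icc 1 (U * U), 0 ≤ Y c := by
    intro c hc
    have := hY c hc 0 (Nat.zero_le _)
    simpa using this
  have hl1 : ∀ n : ℕ, 0 ≤ l1 U n := by
    intro n
    rw [l1_apply]
    split_ifs
    · exact ArithmeticFunction.vonMangoldt_nonneg
    · exact le_rfl
  have hmu1 : ∀ n : ℕ, |mu1 U n| ≤ 1 := by
    intro n
    rw [mu1_apply]
    split_ifs
    · exact_mod_cast ArithmeticFunction.abs_moebius_le_one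
    · simp
  -- the bilinear part
  have hII : ∑ b ∈ Icc 1 N, ∑ c ∈ Icc 1 (N / b), (bt U b * lv U c) • E (b * c) =
      ∑ n ∈ Icc 1 N, LamII U U n • E n := by
    rw [← hyperV' N (fun b c => (bt U b * lv U c) • E (b * c))]
    refine sum_congr rfl fun n _ => ?_
    unfold LamII
    rw [sum_smul]
    refine sum_congr rfl fun i hi => ?_
    rw [(Nat.mem_divisorsAntidiagonal.1 hi).1]
    rfl
  have e1 : ∑ n ∈ Icc 1 N, (ArithmeticFunction.log * mu1 U) n • E n =
      ∑ c ∈ Icc 1 N, mu1 U c • ∑ b ∈ Icc 1 (N / c), Real.log b • E (b * c) := by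
    have := hyperV N (fun b c => (Real.log b * mu1 U c) • E (b * c))
    calc ∑ n ∈ Icc 1 N, (ArithmeticFunction.log * mu1 U) n • E n
        = ∑ n ∈ Icc 1 N, ∑ i ∈ n.divisorsAntidiagonal,
          (Real.log i.1 * mu1 U i.2) • E (i.1 * i.2) := by
          refine sum_congr rfl fun n _ => ?_
          rw [ArithmeticFunction.mul_apply, sum_smul]
          refine sum_congr rfl fun i hi => ?_
          rw [(Nat.mem_divisorsAntidiagonal.1 hi).1, ArithmeticFunction.log_apply]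
      _ = _ := by
          rw [this]
          refine sum_congr rfl fun c _ => ?_
          rw [smul_sum]
          refine sum_congr rfl fun b _ => ?_
          rw [smul_smul, mul_comm]
  have e2 : ∑ n ∈ Icc 1 N, (((ArithmeticFunction.zeta : ArithmeticFunction ℕ) :
      ArithmeticFunction ℝ) * (mu1 U * l1 U)) n • E n =
      ∑ c ∈ Icc 1 N, (mu1 U * l1 U) c • ∑ b ∈ Icc 1 (N / c), E (b * c) := by
    have := hyperV N (fun b c => (mu1 U * l1 U) c • E (b * c))
    calc ∑ n ∈ Icc 1 N, (((ArithmeticFunction.zeta : ArithmeticFunction ℕ) :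
          ArithmeticFunction ℝ) * (mu1 U * l1 U)) n • E n
        = ∑ n ∈ Icc 1 N, ∑ i ∈ n.divisorsAntidiagonal,
          (mu1 U * l1 U) i.2 • E (i.1 * i.2) := by
          refine sum_congr rfl fun n _ => ?_
          rw [ArithmeticFunction.mul_apply, sum_smul]
          refine sum_congr rfl fun i hi => ?_
          have hi1 : i.1 ≠ 0 := by
            obtain ⟨h, h'⟩ := Nat.mem_divisorsAntidiagonal.1 hi
            intro h0
            rw [h0, zero_mul] at h
            exact h' h.symm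
          rw [(Nat.mem_divisorsAntidiagonal.1 hi).1, ArithmeticFunction.natCoe_apply,
            ArithmeticFunction.zeta_apply_ne hi1]
          simp
      _ = _ := by
          rw [this]
          refine sum_congr rfl fun c _ => ?_
          rw [smul_sum]
  have hmain : ∑ n ∈ Icc 1 N, (ArithmeticFunction.vonMangoldt n) • E n -
      ∑ b ∈ Icc 1 N, ∑ c ∈ Icc 1 (N / b), (bt U b * lv U c) • E (b * c) =
      ∑ n ∈ Icc 1 N, l1 U n • E n +
      ∑ c ∈ Icc 1 N, mu1 U c • ∑ b ∈ Icc 1 (N / c), Real.log b • E (b * c) -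
      ∑ c ∈ Icc 1 N, (mu1 U * l1 U) c • ∑ b ∈ Icc 1 (N / c), E (b * c) := by
    rw [hII, ← e1, ← e2, ← sum_sub_distrib, ← sum_add_distrib, ← sum_sub_distrib]
    refine sum_congr rfl fun n _ => ?_
    rw [← sub_smul, vaughan, sub_smul, add_smul]
  rw [hmain]
  -- first term
  have b1 : ‖∑ n ∈ Icc 1 N, l1 U n • E n‖ ≤
      ∑ n ∈ Icc 1 U, ArithmeticFunction.vonMangoldt n * ‖E n‖ := by
    have h1 : ∑ n ∈ Icc 1 N, l1 U n • E n =
        ∑ n ∈ Icc 1 U, ArithmeticFunction.vonMangoldt n • E n := by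
      rw [← sum_subset (Icc_subset_Icc_right hUN')]
      · refine sum_congr rfl fun n hn => ?_
        rw [mem_Icc] at hn
        rw [l1_apply, if_pos hn.2]
      · intro n hn hn'
        rw [mem_Icc] at hn hn'
        rw [l1_apply, if_neg (by omega), zero_smul]
    rw [h1]
    refine (norm_sum_le _ _).trans (sum_le_sum fun n _ => ?_)
    rw [norm_smul, Real.norm_eq_abs, abs_of_nonneg ArithmeticFunction.vonMangoldt_nonneg]
  -- second term
  have b2 : ‖∑ c ∈ Icc 1 N, mu1 U c • ∑ b ∈ Icc 1 (N / c), Real.log b • E (b * c)‖ ≤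
      2 * Real.log N * ∑ c ∈ Icc 1 (U * U), Y c := by
    have h1 : ∑ c ∈ Icc 1 N, mu1 U c • ∑ b ∈ Icc 1 (N / c), Real.log b • E (b * c) =
        ∑ c ∈ Icc 1 (U * U), mu1 U c • ∑ b ∈ Icc 1 (N / c), Real.log b • E (b * c) := by
      rw [← sum_subset (Icc_subset_Icc_right hUN)]
      intro n hn hn'
      rw [mem_Icc] at hn hn'
      rw [mu1_apply, if_neg (by omega), zero_smul]
    rw [h1, mul_sum]
    refine (norm_sum_le _ _).trans (sum_le_sum fun c hc => ?_)
    have hc' := mem_Icc.mp hc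
    rw [norm_smul, Real.norm_eq_abs]
    have h2 := sum_logV (fun b => E (b * c)) (N / c) (Y c) (fun z hz => hY c hc z hz)
    have h3 : Real.log ((N / c : ℕ) : ℝ) ≤ Real.log N := by
      rcases Nat.eq_zero_or_pos (N / c) with h0 | h0
      · rw [h0]; simpa using hlN
      · exact Real.log_le_log (by exact_mod_cast h0) (by exact_mod_cast Nat.div_le_self N c)
    calc |mu1 U c| * ‖∑ b ∈ Icc 1 (N / c), Real.log b • E (b * c)‖
        ≤ 1 * (2 * Real.log ((N / c : ℕ) : ℝ) * Y c) :=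
          mul_le_mul (hmu1 c) h2 (norm_nonneg _) zero_le_one
      _ ≤ 2 * Real.log N * Y c := by
          rw [one_mul]
          exact mul_le_mul_of_nonneg_right (by linarith) (hY0 c hc)
  -- third term
  have b3 : ‖∑ c ∈ Icc 1 N, (mu1 U * l1 U) c • ∑ b ∈ Icc 1 (N / c), E (b * c)‖ ≤
      Real.log N * ∑ c ∈ Icc 1 (U * U), Y c := by
    have hz : ∀ c, U * U < c → (mu1 U * l1 U) c = 0 := by
      intro c hc
      rw [ArithmeticFunction.mul_apply]
      refine sum_eq_zero fun i hi => ?_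
      have h2 := (Nat.mem_divisorsAntidiagonal.1 hi).1
      rw [mu1_apply, l1_apply]
      by_cases h3 : i.1 ≤ U
      · by_cases h4 : i.2 ≤ U
        · exfalso
          have := Nat.mul_le_mul h3 h4
          omega
        · rw [if_neg h4, mul_zero]
      · rw [if_neg h3, zero_mul]
    have hb : ∀ c, 1 ≤ c → c ≤ N → |(mu1 U * l1 U) c| ≤ Real.log N := by
      intro c hc hcN
      rw [ArithmeticFunction.mul_apply]
      calc |∑ i ∈ c.divisorsAntidiagonal, mu1 U i.1 * l1 U i.2|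
          ≤ ∑ i ∈ c.divisorsAntidiagonal, ArithmeticFunction.vonMangoldt i.2 := by
            refine (abs_sum_le_sum_abs _ _).trans (sum_le_sum fun i _ => ?_)
            rw [abs_mul, abs_of_nonneg (hl1 i.2)]
            calc |mu1 U i.1| * l1 U i.2 ≤ 1 * l1 U i.2 :=
                  mul_le_mul_of_nonneg_right (hmu1 _) (hl1 _)
              _ ≤ ArithmeticFunction.vonMangoldt i.2 := by
                  rw [one_mul, l1_apply]
                  split_ifs
                  · exact le_rfl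
                  · exact ArithmeticFunction.vonMangoldt_nonneg
        _ = ∑ e ∈ c.divisors, ArithmeticFunction.vonMangoldt e := by
            rw [Nat.sum_divisorsAntidiagonal' (fun _ e => ArithmeticFunction.vonMangoldt e)]
        _ = Real.log c := ArithmeticFunction.vonMangoldt_sum
        _ ≤ Real.log N := Real.log_le_log (by exact_mod_cast hc) (by exact_mod_cast hcN)
    have h1 : ∑ c ∈ Icc 1 N, (mu1 U * l1 U) c • ∑ b ∈ Icc 1 (N / c), E (b * c) =
        ∑ c ∈ Icc 1 (U * U), (mu1 U * l1 U) c • ∑ b ∈ Icc 1 (N / c), E (b * c) := by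
      rw [← sum_subset (Icc_subset_Icc_right hUN)]
      intro n hn hn'
      rw [mem_Icc] at hn hn'
      rw [hz n (by omega), zero_smul]
    rw [h1, mul_sum]
    refine (norm_sum_le _ _).trans (sum_le_sum fun c hc => ?_)
    have hc' := mem_Icc.mp hc
    rw [norm_smul, Real.norm_eq_abs]
    exact mul_le_mul (hb c hc'.1 (hc'.2.trans hUN)) (hY c hc _ le_rfl) (norm_nonneg _) hlN
  have hS : 0 ≤ ∑ c ∈ Icc 1 (U * U), Y c := sum_nonneg hY0
  calc ‖∑ n ∈ Icc 1 N, l1 U n • E n +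
        ∑ c ∈ Icc 1 N, mu1 U c • ∑ b ∈ Icc 1 (N / c), Real.log b • E (b * c) -
        ∑ c ∈ Icc 1 N, (mu1 U * l1 U) c • ∑ b ∈ Icc 1 (N / c), E (b * c)‖
      ≤ ‖∑ n ∈ Icc 1 N, l1 U n • E n‖ +
        ‖∑ c ∈ Icc 1 N, mu1 U c • ∑ b ∈ Icc 1 (N / c), Real.log b • E (b * c)‖ +
        ‖∑ c ∈ Icc 1 N, (mu1 U * l1 U) c • ∑ b ∈ Icc 1 (N / c), E (b * c)‖ :=
        (norm_sub_le _ _).trans (add_le_add_left (norm_add_le _ _) _)
    _ ≤ ∑ n ∈ Icc 1 U, ArithmeticFunction.vonMangoldt n * ‖E n‖ +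
        2 * Real.log N * ∑ c ∈ Icc 1 (U * U), Y c + Real.log N * ∑ c ∈ Icc 1 (U * U), Y c :=
        add_le_add (add_le_add b1 b2) b3
    _ ≤ _ := by nlinarith

end Pool.Agent.Y235.GJ
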